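import Pool.Agent.Y33.SM.Stm
import Pool.Agent.Y33.LG.QI

/-! # From the vertex set to the Cayley graph (helper33) -/

set_option autoImplicit false

namespace Pool.Agent.Y33.SM

open Pool.Agent.H659R3.MorseLim Pool.Agent.Y33.LG Filter

theorem MorseLimited.of_qinv {X Y : Type} [MetricSpace X] [MetricSpace Y] {f : X → Y}
    {h : Y → X} {c : ℝ} (H : QInv f h c) (hX : MorseLimited X) : MorseLimited Y := by
  have hc := H.one_le
  intro M lam eps hlam heps
  set M₁ : LG.Gauge := fun l e =>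
    Real.toNNReal (c * (M (c * l) (c * e + c + 2 * c) + 1 + 2 * c) + c) with hM₁
  obtain ⟨B, key⟩ := hX M₁ (c * lam) (c * eps + c) (by nlinarith) (by positivity)
  refine ⟨B, ?_⟩
  intro I γ hI hγ g1 x0 hx0 y0 hy0
  refine key I (fun t => h (γ t)) hI (hγ.comp H.symm hlam heps) ?_ x0 hx0 y0 hy0
  intro l e hl he c' d' hcd q hq hqc hqd u hu
  obtain ⟨s0, hs0, hs0'⟩ := hqc
  obtain ⟨s1, hs1, hs1'⟩ := hqd
  classical
  set q' : ℝ → Y := fun t => if t = c' then γ s0 else if t = d' then γ s1 else f (q t) with hq'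
  have hne : (γ '' I).Nonempty := ⟨_, s0, hs0, rfl⟩
  have hclose : ∀ t ∈ Set.Icc c' d', dist (f (q t)) (q' t) ≤ c := by
    intro t _
    simp only [hq']
    split_ifs with h1 h2
    · rw [h1, ← hs0']; exact H.fh _
    · rw [h2, ← hs1']; exact H.fh _
    · simp; linarith
  have hqg := (hq.comp H hl he).near hclose
  have h1 := g1 (c * l) (c * e + c + 2 * c) (by nlinarith) (by positivity) c' d' hcd q' hqg
    ⟨s0, hs0, by simp [hq']⟩ (by
      by_cases h1 : d' = c'
      · exact ⟨s0, hs0, by simp [hq', h1]⟩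
      · exact ⟨s1, hs1, by simp [hq', h1]⟩) u hu
  obtain ⟨x, hx, hx'⟩ := exists_near hne h1
  refine (Metric.infDist_le_dist_of_mem (s := (fun t => h (γ t)) '' I)
    (y := h (γ x)) ⟨x, hx, rfl⟩).trans ?_
  have a1 := hclose u hu
  have a2 := H.fh (γ x)
  have a3 := H.f_lo (q u) (h (γ x))
  have t1 := dist_triangle (f (q u)) (q' u) (f (h (γ x)))
  have t2 := dist_triangle (q' u) (γ x) (f (h (γ x)))
  rw [dist_comm (γ x)] at t2
  refine le_trans ?_ (Real.le_coe_toNNReal _)
  calc dist (q u) (h (γ x)) ≤ c * dist (f (q u)) (f (h (γ x))) + c := a3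
    _ ≤ _ := by
      gcongr
      linarith

theorem MorseLimited.of_qi' {X Y : Type} [MetricSpace X] [MetricSpace Y]
    (h : QuasiIsometric X Y) (hY : MorseLimited Y) : MorseLimited X := by
  obtain ⟨f, g, c, H⟩ := h.qinv
  exact hY.of_qinv H.symm

/-- scaling sequences are bounded below -/
theorem exists_low {s : ℕ → ℝ} (h0 : ∀ j, 0 < s j) (h : Tendsto s atTop atTop) :
    ∃ c : ℝ, 0 < c ∧ ∀ j, c ≤ s j := by
  obtain ⟨N, hN⟩ := eventually_atTop.1 (h.eventually_ge_atTop 1)
  refine ⟨min 1 ((Finset.range (N + 1)).inf' ⟨0, by simp⟩ s), ?_, ?_⟩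
  · refine lt_min one_pos ?_
    rw [Finset.lt_inf'_iff]
    intro j _
    exact h0 j
  · intro j
    rcases le_or_gt N j with hj | hj
    · exact (min_le_left _ _).trans (hN j hj)
    · exact (min_le_right _ _).trans (Finset.inf'_le s (by simp; omega))

/-- the cones of a space containing `Y` as a coarsely dense subspace -/
theorem cone_sub {X Y : Type} [MetricSpace X] [MetricSpace Y] {f : Y → X} (hf : Isometry f)
    {g : X → Y} {R : ℝ} (hg : ∀ x, dist x (f (g x)) ≤ R) {ω : Ultrafilter ℕ}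
    (hω : (ω : Filter ℕ) ≤ cofinite) {s : ℕ → ℝ} (h0 : ∀ j, 0 < s j)
    (hs : Tendsto s atTop atTop) (e : ℕ → X) (C : Type) [MetricSpace C] :
    IsAsCone ω s e C ↔ IsAsCone ω s (fun j => g (e j)) C := by
  obtain ⟨c, hc0, hc⟩ := exists_low h0 hs
  have hR : 0 ≤ R := by
    exact dist_nonneg.trans (hg (e 0))
  have hωt : (ω : Filter ℕ) ≤ atTop := by rwa [← Nat.cofinite_eq_atTop]
  -- bounded differences vanish in the limit
  have hz : ∀ (K : ℝ) (a b : ℕ → ℝ) (L : ℝ), (∀ j, |a j - b j| ≤ K) →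
      Tendsto (fun j => a j / s j) ω (nhds L) → Tendsto (fun j => b j / s j) ω (nhds L) := by
    intro K a b L hab ha
    have h1 : Tendsto (fun j => (b j - a j) / s j) ω (nhds 0) := by
      have h2 : Tendsto (fun j => K / s j) ω (nhds 0) :=
        (hs.mono_left hωt).const_div_atTop K
      refine squeeze_zero_norm (fun j => ?_) h2
      rw [norm_div, Real.norm_eq_abs, Real.norm_eq_abs, abs_of_pos (h0 j), abs_sub_comm]
      exact div_le_div_of_nonneg_right (hab j) (h0 j).le
    have h3 := ha.add h1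
    rw [add_zero] at h3
    refine h3.congr (fun j => ?_)
    rw [← add_div]
    ring_nf
  have hgg : ∀ x x' : X, |dist x x' - dist (g x) (g x')| ≤ 2 * R := by
    intro x x'
    rw [← hf.dist_eq (g x) (g x')]
    have t1 := dist_triangle x (f (g x)) x'
    have t2 := dist_triangle (f (g x)) (f (g x')) x'
    have t3 := dist_triangle (f (g x)) x (f (g x'))
    have t4 := dist_triangle x x' (f (g x'))
    have a1 := hg x
    have a2 := hg x'
    rw [dist_comm (f (g x')) x'] at t2
    rw [dist_comm (f (g x)) x] at t3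
    rw [abs_le]
    constructor <;> linarith
  constructor
  · rintro ⟨F, F1, F2⟩
    have hb : ∀ y : {x : ℕ → Y // ∃ K : ℝ, ∀ j, dist (x j) (g (e j)) ≤ K * s j},
        ∃ K : ℝ, ∀ j, dist (f (y.1 j)) (e j) ≤ K * s j := by
      rintro ⟨y, K, hK⟩
      refine ⟨K + R / c, fun j => ?_⟩
      have t1 := dist_triangle (f (y j)) (f (g (e j))) (e j)
      rw [hf.dist_eq, dist_comm (f (g (e j)))] at t1
      have a1 := hK j
      have a2 := hg (e j)
      have a3 : R ≤ R / c * s j := by
        rw [div_mul_eq_mul_div, le_div_iff₀ hc0]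
        exact mul_le_mul_of_nonneg_left (hc j) hR
      show dist (f (y j)) (e j) ≤ (K + R / c) * s j
      rw [add_mul]
      linarith
    refine ⟨fun y => F ⟨fun j => f (y.1 j), hb y⟩, ?_, ?_⟩
    · intro p
      obtain ⟨⟨x, K, hK⟩, rfl⟩ := F1 p
      have hgx : ∃ K : ℝ, ∀ j, dist (g (x j)) (g (e j)) ≤ K * s j := by
        refine ⟨K + 2 * R / c, fun j => ?_⟩
        have a1 := hgg (x j) (e j)
        have a2 := hK j
        rw [abs_le] at a1
        have a3 : 2 * R ≤ 2 * R / c * s j := by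
          rw [div_mul_eq_mul_div, le_div_iff₀ hc0]
          exact mul_le_mul_of_nonneg_left (hc j) (by linarith)
        rw [add_mul]
        linarith [a1.1]
      refine ⟨⟨fun j => g (x j), hgx⟩, ?_⟩
      refine dist_eq_zero.1 ?_
      have h1 := F2 ⟨fun j => f (g (x j)), hb ⟨fun j => g (x j), hgx⟩⟩ ⟨x, K, hK⟩
      have h2 : Tendsto (fun j => dist (f (g (x j))) (x j) / s j) ω (nhds 0) := by
        refine hz R (fun _ => 0) _ 0 (fun j => ?_) (by simp)
        rw [zero_sub, abs_neg, abs_of_nonneg dist_nonneg, dist_comm]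
        exact hg _
      exact tendsto_nhds_unique h1 h2
    · intro y y'
      have := F2 ⟨fun j => f (y.1 j), hb y⟩ ⟨fun j => f (y'.1 j), hb y'⟩
      simpa only [hf.dist_eq] using this
  · rintro ⟨F, F1, F2⟩
    have hb : ∀ x : {x : ℕ → X // ∃ K : ℝ, ∀ j, dist (x j) (e j) ≤ K * s j},
        ∃ K : ℝ, ∀ j, dist (g (x.1 j)) (g (e j)) ≤ K * s j := by
      rintro ⟨x, K, hK⟩
      refine ⟨K + 2 * R / c, fun j => ?_⟩
      have a1 := hgg (x j) (e j)
      have a2 := hK j
      rw [abs_le] at a1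
      have a3 : 2 * R ≤ 2 * R / c * s j := by
        rw [div_mul_eq_mul_div, le_div_iff₀ hc0]
        exact mul_le_mul_of_nonneg_left (hc j) (by linarith)
      show dist (g (x j)) (g (e j)) ≤ (K + 2 * R / c) * s j
      rw [add_mul]
      linarith [a1.1]
    refine ⟨fun x => F ⟨fun j => g (x.1 j), hb x⟩, ?_, ?_⟩
    · intro p
      obtain ⟨⟨y, K, hK⟩, rfl⟩ := F1 p
      have hfy : ∃ K : ℝ, ∀ j, dist (f (y j)) (e j) ≤ K * s j := by
        refine ⟨K + R / c, fun j => ?_⟩
        have t1 := dist_triangle (f (y j)) (f (g (e j))) (e j)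
        rw [hf.dist_eq, dist_comm (f (g (e j)))] at t1
        have a1 := hK j
        have a2 := hg (e j)
        have a3 : R ≤ R / c * s j := by
          rw [div_mul_eq_mul_div, le_div_iff₀ hc0]
          exact mul_le_mul_of_nonneg_left (hc j) hR
        rw [add_mul]
        linarith
      refine ⟨⟨fun j => f (y j), hfy⟩, ?_⟩
      refine dist_eq_zero.1 ?_
      have h1 := F2 ⟨fun j => g (f (y j)), hb ⟨fun j => f (y j), hfy⟩⟩ ⟨y, K, hK⟩
      have h2 : Tendsto (fun j => dist (g (f (y j))) (y j) / s j) ω (nhds 0) := by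
        refine hz R (fun _ => 0) _ 0 (fun j => ?_) (by simp)
        rw [zero_sub, abs_neg, abs_of_nonneg dist_nonneg, ← hf.dist_eq, dist_comm]
        exact hg _
      exact tendsto_nhds_unique h1 h2
    · intro x x'
      have h1 := F2 ⟨fun j => g (x.1 j), hb x⟩ ⟨fun j => g (x'.1 j), hb x'⟩
      refine hz (2 * R) _ _ _ (fun j => ?_) h1
      rw [abs_sub_comm]
      exact hgg _ _

end Pool.Agent.Y33.SM
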