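import Pool.Agent.Y33.SM.Asm1

/-! # Assembly of the step, part 2 (helper33) -/

set_option autoImplicit false

namespace Pool.Agent.Y33.SM

open Pool.Agent.TH54.BU

theorem QL.fb {G : Type} [Group G] {w : GH G} {M : Subgroup G} [M.Normal] {w' : GH (G ⧸ M)}
    (h : QL w M w') (hf : ∀ n : ℕ, {g : G | w.len g ≤ n}.Finite) (n : ℕ) :
    {q : G ⧸ M | w'.len q ≤ n}.Finite := by
  refine ((hf n).image (fun g : G => (g : G ⧸ M))).subset ?_
  intro q hq
  obtain ⟨g, h1, h2⟩ := h.lift q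
  exact ⟨g, by show w.len g ≤ n; rw [h2]; exact hq, h1⟩

theorem step (hy : S_HYP) (hl : S_LSX) (hnice : S_NICE) (hstr : S_STR) (hnc : S_NCQ)
    (hcut : S_CUT) (hcap : S_CAP) (hb : S_BETA) (ha : S_ALPHA) (ha2 : S_A2) (hd : S_DET) :
    S_STEP := by
  obtain ⟨n0, hy⟩ := hy
  refine ⟨n0 + 10 ^ 12, ?_⟩
  intro n hn0 hodd G _ w h h' nw s1 s2 nc r0 ph C r
  obtain ⟨e, k, pj⟩ := exists_Pj w s1
  obtain ⟨A0, hA0⟩ := ha G w h h' e k nw s1 s2 nc pj
  obtain ⟨Ec, hEc⟩ := hcap G w h h' e k nw s1 s2 nc pj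
  obtain ⟨Eb, κb, hEb⟩ := hb G w nw
  obtain ⟨sp, hsp⟩ := ph (e + w.D)
  obtain ⟨A', κc, hcap'⟩ := hEc (A0 + sp + e + 1)
  obtain ⟨D0, κu, hcut'⟩ := hcut G w h e k A' C r nw s1 pj
  obtain ⟨κl, hl'⟩ := hl G w nw
  refine ⟨D0, fun R => ?_⟩
  obtain ⟨κd1, hd1⟩ := hd G w nw Ec R
  obtain ⟨κd2, hd2⟩ := hd G w nw Eb R
  obtain ⟨κ, hκ⟩ : ∃ κ, κ = κb + κc + κu + κl + κd1 + κd2 + 1000 * (w.D + 1) + R + 2 * sp + 1 :=
    ⟨_, rfl⟩
  have hnbig : 10 ^ 12 ≤ n := by omega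
  have hnκ : 10 ^ 12 * κ ≤ n * κ := Nat.mul_le_mul_right _ hnbig
  let X : Set G := {x | Prim x ∧ w.CMin x ∧ κ ≤ w.len x ∧ w.len x ≤ 5 * κ ∧ HF k A' x}
  obtain ⟨F, L, FD, resc, stab, acy, mem, cov⟩ := hl' κ (by omega) X
    (fun x hx => ⟨hx.1, hx.2.1, hx.2.2.1, hx.2.2.2.1⟩)
  have hthr : L.thr = 472408 := rfl
  have fil := L.fil (n := n) (by rw [hthr]; omega)
  obtain ⟨M, hM⟩ : ∃ M, M = Subgroup.normalClosure (Set.range fun i => L.x i ^ n) := ⟨_, rfl⟩
  rw [← hM] at fil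
  haveI hN : M.Normal := fil.normal
  have ctx : Ctx w κ n L X M :=
    { nw := nw
      hκ := by omega
      hn := hnbig
      odd := hodd
      FD := FD
      resc := resc
      stab := stab
      acy := acy
      mem := mem
      cov := cov
      prim := fun x hx => hx.1
      cmin := fun x hx => hx.2.1
      lo := fun x hx => hx.2.2.1
      hi := fun x hx => hx.2.2.2.1
      fil := fil }
  obtain ⟨w', ql⟩ := hy G w κ n F L X M (by omega) ctx
  obtain ⟨hst1, hst2, hst3⟩ := hstr G w κ n F L X M ctx w' ql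
  have hni := hnice G w κ n F L X M ctx
  -- detours at the scale `κ`
  have key : ∀ (γ : ℕ → G) (a l : ℕ), w.Geod γ l → (∀ i j : ℕ, i ≤ j → j ≤ l →
      w'.d (γ i : G ⧸ M) (γ j : G ⧸ M) = j - i) → a + κ ≤ l →
      (∀ g : G, (k (g * γ a) - k (g * γ (a + κ))).natAbs ≤ A0 + sp + e + 1) →
      Det w'.d (Lam n) R (10 * n * κ) (fun j => (γ j : G ⧸ M)) l := by
    intro γ a l hγ hγ' hal hA
    have g1 := geod_shift hγ hal
    obtain ⟨x, x1, x2, x3, x4, x5, x6⟩ := hcap' κ (by omega) (fun t => γ (a + t)) g1 hA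
    have g2 := hd1 κ (by omega) n F L X M ctx w' ql x ⟨x1, x2, x3, x4, x5⟩
      (fun t => γ (a + t)) κ g1 (by
        have := hγ' a (a + κ) (by omega) hal
        simpa using this) x6
    exact Det.shift (γ := fun j => (γ j : G ⧸ M)) hal g2
  refine ⟨M, hN, w', κ + 10 * n * κ + sp, ql, ⟨ql.fb nw.fb, hni.1, hni.2⟩, hst1 h s1, hst1 h' s2,
    (hnc G w κ n F L X M ctx w' ql h h' s1 s2 nc).symm (hst1 h s1), ?_, ?_, ?_, ?_⟩
  · intro g hg
    exact hst3 g (by omega)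
  · exact hcut' κ (by omega) n F L X M ctx (fun x hx => hx.2.2.2.2) w' ql
  · intro γ' l hγ' hl
    obtain ⟨γ, hγ, hc⟩ := ql.lift_geod hγ'
    have hdd : ∀ i j : ℕ, i ≤ j → j ≤ l → w'.d (γ i : G ⧸ M) (γ j : G ⧸ M) = j - i := by
      intro i j hij hj
      rw [hc, hc]
      exact geod_eq hγ' hij hj
    have hcc : (fun j => (γ j : G ⧸ M)) = γ' := funext hc
    have hkl : 0 + κ ≤ l := by omega
    by_cases hA : ∀ g : G, (k (g * γ 0) - k (g * γ (0 + κ))).natAbs ≤ A0 + sp + e + 1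
    · have := key γ 0 l hγ hdd hkl hA
      rw [hcc] at this
      exact this.mono (min_le_right _ _) (by omega)
    · push Not at hA
      obtain ⟨g, hg⟩ := hA
      rw [zero_add] at hg
      have g1 : w.Geod γ κ := by
        have := geod_shift hγ hkl
        simpa using this
      obtain ⟨i, j, g', p, q, i1, i2, i3, i4, i5⟩ := dich s1 pj g1 (by omega) hg
      have g2 : w.Geod (fun t => γ (i + t)) (j - i) := geod_shift hγ (by omega)
      have g3 := hsp (fun t => γ (i + t)) (j - i) g2 (by omega) ⟨g', p, q, by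
        simpa using i4, by
        simp only [Nat.add_sub_cancel' i1]
        exact i5⟩
      have g4 := g3.quot ql (R := 2 * sp) (fun g hg => hst3 g (by omega)) g2 le_rfl
      have g5 := Det.shift (γ := fun j => (γ j : G ⧸ M)) (i := i) (k := j - i) (l := l) (by omega) g4
      rw [hcc] at g5
      exact g5.mono (min_le_left _ _) (by omega)
  · intro E'
    obtain ⟨sa, hsa⟩ := ha2 G w κ n F L X M ctx w' ql h' s2 E'
    obtain ⟨sb, hsb⟩ := hA0 E'
    refine ⟨sa + 2 * sb + κ + 10 * n * κ, ?_⟩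
    intro γ' l hγ' hl hends
    obtain ⟨γ, hγ, hc⟩ := ql.lift_geod hγ'
    have hdd : ∀ i j : ℕ, i ≤ j → j ≤ l → w'.d (γ i : G ⧸ M) (γ j : G ⧸ M) = j - i := by
      intro i j hij hj
      rw [hc, hc]
      exact geod_eq hγ' hij hj
    have hcc : (fun j => (γ j : G ⧸ M)) = γ' := funext hc
    have hends' : ∃ (g : G ⧸ M) (p q : ℤ), w'.d (γ 0 : G ⧸ M) (g * (h' : G ⧸ M) ^ p) ≤ E' ∧
        w'.d (γ l : G ⧸ M) (g * (h' : G ⧸ M) ^ q) ≤ E' := by
      rw [hc, hc]
      exact hends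
    have hl0 : w'.d (γ 0 : G ⧸ M) (γ l : G ⧸ M) = l := by
      have := hdd 0 l (Nat.zero_le _) le_rfl
      simpa using this
    rcases hsa γ l hγ hl0 (by omega) hends' with h1 | ⟨i, u, h1⟩
    · have h2 := hsb γ l hγ h1 sb (sb + κ) le_rfl (by omega) (by omega)
      have := key γ sb l hγ hdd (by omega) (fun g => (h2 g).trans (by omega))
      rw [hcc] at this
      exact this.mono le_rfl (by omega)
    · have h2 := hEb κ (by omega) n F L X M ctx γ l hγ i u (by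
        have : (10 : ℤ) ^ 12 ≤ n := by exact_mod_cast hnbig
        omega)
      have := hd2 κ (by omega) n F L X M ctx w' ql (L.x i) (mem i) γ l hγ hl0 h2
      rw [hcc] at this
      exact this.mono le_rfl (by omega)

end Pool.Agent.Y33.SM
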