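import Pool.Agent.Y33.SM.Stm
import Pool.Agent.TH54.BU.FamLS

/-! # Capturing: assembly (helper33) -/

set_option autoImplicit false

namespace Pool.Agent.Y33.SM

open Pool.Agent.TH54.BU

theorem cap (hz : S_ZIG) (hp : S_CPR) (hc : S_CCM) (hf : S_CHF) : S_CAP := by
  intro G _ w h h' e k nw s1 s2 nc pj
  obtain ⟨C, κ1, z1⟩ := hz G w h h' nw s1 s2 nc
  obtain ⟨κ2, z2⟩ := hp G w h h' nw s1 s2 nc C
  obtain ⟨E, κ3, z3⟩ := hc G w h h' nw s1 s2 C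
  refine ⟨E, fun A => ?_⟩
  obtain ⟨A', κ4, z4⟩ := hf G w h h' e k nw s1 s2 nc pj C E A
  refine ⟨A', κ1 + κ2 + κ3 + κ4, ?_⟩
  intro κ hκ γ hγ hA
  have hu : w.len ((γ 0)⁻¹ * γ κ) = κ := hγ.2
  obtain ⟨x0, hx0⟩ := z1 κ (by omega) _ hu
  have hpr := z2 κ (by omega) _ x0 hx0
  obtain ⟨x, v, e1, cm, lo, hi, cx, nr⟩ := z3 κ (by omega) γ hγ x0 hx0
  have hx : Prim x := by
    have := Fls.prim_conj v⁻¹ hpr
    rwa [e1, show v⁻¹ * (v * x * v⁻¹) * v⁻¹⁻¹ = x by group] at this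
  refine ⟨x, hx, cm, lo, hi, ?_, cx⟩
  refine z4 κ (by omega) _ x0 hx0 ?_ x v e1 nr
  intro g
  have := hA (g * (γ 0)⁻¹)
  rwa [show g * (γ 0)⁻¹ * γ 0 = g by group, show g * (γ 0)⁻¹ * γ κ = g * ((γ 0)⁻¹ * γ κ) by group]
    at this

end Pool.Agent.Y33.SM
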