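import Pool.Agent.Y33.SM.Acy
import Pool.Agent.Y96.SM.Lsx
import Pool.Agent.Y186.SM.Zig
import Pool.Agent.Y179.SM.Ccm
import Pool.Agent.Y179.SM.Cpr
import Pool.Agent.Y195.SM.COMX
import Pool.Agent.Y470.SM.BETA
import Pool.Agent.Y375.SM.ML
import Pool.Agent.Y33.SM.Cap
import Pool.Agent.Y33.SM.Asm2
import Pool.Agent.Y33.SM.Ext
import Pool.Agent.Y109.SM.Cone
import Pool.Agent.Y179.SM.Circ
import Pool.Agent.Y186.SM.Alpha
import Pool.Agent.Y186.SM.Chf
import Pool.Agent.Y195.SM.COMA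
import Pool.Agent.Y195.SM.TOR
import Pool.Agent.Y240.SM.Det
import Pool.Agent.Y26.SM.CUT
import Pool.Agent.Y26.SM.KEY
import Pool.Agent.Y26.SM.NCQ
import Pool.Agent.Y375.SM.Tower
import Pool.Agent.Y470.SM.ATwo
import Pool.Agent.Y470.SM.HYP
import Pool.Agent.Y470.SM.QIH
import Pool.Agent.Y688.SM.Ovs
import Pool.Agent.Y896.SM.Nice
import Pool.Agent.Y905.SM.Crn
import Pool.Agent.Y905.SM.Stepf

/-! # Sparse scale monsters: final assembly (helper33) -/

set_option autoImplicit false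

namespace Pool.Agent.Y33.SM

open Pool.Agent.TH54.BU Pool.Agent.H659R3.MorseLim Pool.Agent.Y33.LG Filter

theorem fin_step (hl : S_LSX) (hX : S_COMX) (hz : S_ZIG) (hp : S_CPR) (hc : S_CCM)
    (hb : S_BETA) : S_STEP := by
  have hA : S_ACY := Acy.t
  have hmin : S_MIN := Pool.Agent.Y688.SM.t0
  have hov : S_OV := Pool.Agent.Y688.SM.t1
  have hstr : S_STR := Pool.Agent.Y688.SM.t2 hov
  exact step Pool.Agent.Y470.SM.tHYP hl
    (Pool.Agent.Y896.SM.Nice.t Pool.Agent.Y195.SM.t Pool.Agent.Y195.SM.Coma.t hX) hstr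
    (Pool.Agent.Y26.SM.NCQ.t hmin hov)
    (Pool.Agent.Y26.SM.CUT.t (Pool.Agent.Y26.SM.KEY.t hmin hov) hstr)
    (cap hz hp hc (Pool.Agent.Y186.SM.Chf.t hA)) hb (Pool.Agent.Y186.SM.Alpha.t hA)
    (Pool.Agent.Y470.SM.tA2 hmin hov)
    (Pool.Agent.Y240.SM.det (Pool.Agent.Y179.SM.Circ.t hstr))

theorem fin (hl : S_LSX) (hX : S_COMX) (hz : S_ZIG) (hp : S_CPR) (hc : S_CCM)
    (hb : S_BETA) (hm : S_ML) : ∃ (G : Type) (_ : Group G) (A : FinGen G),
    ∀ (X : Type) [MetricSpace X] (f : Cay A → X), Isometry f → (∃ R, ∀ x, ∃ g, dist x (f g) ≤ R) →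
      MorseLimited X ∧ ∀ (ω : Ultrafilter ℕ) (s : ℕ → ℝ) (e : ℕ → X), (ω : Filter ℕ) ≤ cofinite →
        (∀ j, 0 < s j) → Tendsto s atTop atTop →
          (∃ (C : Type) (_ : MetricSpace C), IsAsCone ω s e C) ∧
          ∀ (C : Type) [MetricSpace C], IsAsCone ω s e C →
            ConnectedSpace C ∧ ∃ p : C, ¬ IsPreconnected ({p}ᶜ : Set C) := by
  obtain ⟨G, _, A, a, b, Λ, ha, hb', hcut, hdet⟩ := Pool.Agent.Y375.SM.Tower.t
    (Pool.Agent.Y905.SM.t (fin_step hl hX hz hp hc hb)) Pool.Agent.Y905.SM.b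
  refine ⟨G, inferInstance, A, ?_⟩
  intro X _ f hf hR
  obtain ⟨R, hR⟩ := hR
  have hM : MorseLimited (Cay A) := hm G A Λ hdet
  choose g hg using hR
  refine ⟨?_, ?_⟩
  · have c1 : (1 : ℝ) ≤ max 1 (2 * R) := le_max_left _ _
    have c2 : 2 * R ≤ max 1 (2 * R) := le_max_right _ _
    have hR0 : 0 ≤ R := dist_nonneg.trans (hg (f (1 : G)))
    have e1 : ∀ {t u : ℝ}, 0 ≤ t → u ≤ t + 2 * R → u ≤ max 1 (2 * R) * t + max 1 (2 * R) := by
      intro t u h1 h2
      nlinarith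
    refine MorseLimited.of_qinv (f := f) (h := g) (c := max 1 (2 * R)) ⟨c1, ?_, ?_, ?_, ?_, ?_, ?_⟩ hM
    · intro x x'
      exact e1 dist_nonneg (by rw [hf.dist_eq]; linarith)
    · intro x x'
      exact e1 dist_nonneg (by rw [hf.dist_eq]; linarith)
    · intro y y'
      refine e1 dist_nonneg ?_
      rw [← hf.dist_eq]
      have t1 := dist_triangle (f (g y)) y (f (g y'))
      have t2 := dist_triangle y y' (f (g y'))
      have a1 := hg y
      have a2 := hg y'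
      rw [dist_comm (f (g y)) y] at t1
      linarith
    · intro y y'
      refine e1 dist_nonneg ?_
      rw [← hf.dist_eq]
      have t1 := dist_triangle y (f (g y)) y'
      have t2 := dist_triangle (f (g y)) (f (g y')) y'
      have a1 := hg y
      have a2 := hg y'
      rw [dist_comm (f (g y')) y'] at t2
      linarith
    · intro y
      rw [dist_comm]
      have := hg y
      linarith
    · intro x
      rw [← hf.dist_eq, dist_comm]
      have := hg (f x)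
      linarith
  · intro ω s e hω h0 hs
    have key := Pool.Agent.Y109.SM.t G A a b ha hb' hcut ω s (fun j => g (e j)) hω h0 hs
    refine ⟨?_, ?_⟩
    · obtain ⟨C, i, hC⟩ := key.1
      exact ⟨C, i, (cone_sub hf hg hω h0 hs e C).2 hC⟩
    · intro C _ hC
      exact key.2 C ((cone_sub hf hg hω h0 hs e C).1 hC)

/-- the group `G` and the finite generating set `A` -/
theorem final : ∃ (G : Type) (_ : Group G) (A : FinGen G),
    ∀ (X : Type) [MetricSpace X] (f : Cay A → X), Isometry f → (∃ R, ∀ x, ∃ g, dist x (f g) ≤ R) →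
      MorseLimited X ∧ ∀ (ω : Ultrafilter ℕ) (s : ℕ → ℝ) (e : ℕ → X), (ω : Filter ℕ) ≤ cofinite →
        (∀ j, 0 < s j) → Tendsto s atTop atTop →
          (∃ (C : Type) (_ : MetricSpace C), IsAsCone ω s e C) ∧
          ∀ (C : Type) [MetricSpace C], IsAsCone ω s e C →
            ConnectedSpace C ∧ ∃ p : C, ¬ IsPreconnected ({p}ᶜ : Set C) := by
  have hA : S_ACY := Acy.t
  exact fin (Pool.Agent.Y96.SM.t hA) Pool.Agent.Y195.SM.Comx.t
    (Pool.Agent.Y186.SM.Zig.t (Pool.Agent.Y905.SM.t_crn hA) hA) (Pool.Agent.Y179.SM.Cpr.t hA)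
    Pool.Agent.Y179.SM.Ccm.t Pool.Agent.Y470.SM.tBETA Pool.Agent.Y375.SM.ML.t

end Pool.Agent.Y33.SM
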