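import Pool.Agent.Y33.SM.Stm
import Pool.Agent.TH64.Ost2
import Pool.Agent.TH54.BU.Surv

/-! # Acylindricity of nice hyperbolic groups (job ACY, helper33) -/

set_option autoImplicit false

namespace Pool.Agent.Y33.SM.Acy

open Pool.Agent.TH54.BU Pool.Agent.TH64

variable {G : Type} [Group G]

def hyp (w : GH G) (nw : NW w) : Hyp G where
  len := w.len
  D := w.D
  len_one := w.len_one
  eq_one := w.eq_one
  len_inv := w.len_inv
  len_mul := w.len_mul
  fp' := w.fp'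
  step := w.step
  fin := nw.fb

theorem nice (w : GH G) (nw : NW w) : Nice G where
  hyp := ⟨hyp w nw⟩
  odd := by
    intro a ha
    by_contra hcon
    rw [Nat.not_odd_iff_even] at hcon
    obtain ⟨m, hm⟩ := hcon
    have h1 : (a ^ m) ^ 2 = 1 := by
      rw [← pow_mul, show m * 2 = orderOf a by omega]
      exact pow_orderOf_eq_one a
    have h2 := nw.odd _ h1
    have h3 : 0 < orderOf a := ha.orderOf_pos
    have h4 := orderOf_dvd_of_pow_eq_one h2
    have h5 := Nat.le_of_dvd (by omega) h4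
    omega
  com := nw.com

/-- an element whose square is long has infinite order -/
theorem not_fin (w : GH G) (nw : NW w) {z : G} (hz : w.len z + w.D + 1 ≤ w.len (z ^ 2)) :
    ¬ IsOfFinOrder z := by
  intro hf
  obtain ⟨m, hm, h1⟩ := isOfFinOrder_iff_pow_eq_one.1 hf
  have h2 := (hyp w nw).lox_lin (z := z) hz m
  have h3 : (hyp w nw).len (z ^ m) = 0 := by rw [h1]; exact w.len_one
  omega

theorem two_le (w : GH G) (nw : NW w) {z : G} (hz : IsOfFinOrder z) :
    w.len (z ^ 2) ≤ w.len z + w.D := by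
  by_contra hcon
  exact not_fin w nw (by omega) hz

/-- one of three elements has infinite order -/
theorem one_inf (w : GH G) (nw : NW w) {u1 u2 : G} (h : w.len (u1 * u2) = w.len u1 + w.len u2)
    (h1 : 6 * w.D + 2 ≤ w.len u1) (h2 : 6 * w.D + 2 ≤ w.len u2) :
    ¬ IsOfFinOrder u1 ∨ ¬ IsOfFinOrder u2 ∨ ¬ IsOfFinOrder (u1 * u2) := by
  by_contra hcon
  push Not at hcon
  obtain ⟨f1, f2, f3⟩ := hcon
  have a1 := two_le w nw f1
  have a2 := two_le w nw f2
  have a3 := two_le w nw f3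
  -- distances
  have e1 : w.d u1 u1⁻¹ = w.len (u1 ^ 2) := by
    unfold GH.d
    rw [← w.len_inv]
    congr 1
    simp only [mul_inv_rev, inv_inv, pow_two]
  have e2 : w.d u2 u2⁻¹ = w.len (u2 ^ 2) := by
    unfold GH.d
    rw [← w.len_inv]
    congr 1
    simp only [mul_inv_rev, inv_inv, pow_two]
  have e3 : w.d (u1 * u2) (u1 * u2)⁻¹ = w.len ((u1 * u2) ^ 2) := by
    unfold GH.d
    rw [← w.len_inv]
    congr 1
    simp only [mul_inv_rev, inv_inv, pow_two]
  have e4 : w.d u1⁻¹ u2 = w.len u1 + w.len u2 := by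
    unfold GH.d
    rw [inv_inv, h]
  have e5 : w.d u1 (u1 * u2) = w.len u2 := by
    unfold GH.d
    rw [inv_mul_cancel_left]
  have e6 : w.d u2⁻¹ (u1 * u2)⁻¹ = w.len u1 := by
    unfold GH.d
    rw [← w.len_inv u1]
    congr 1
    group
  have n1 : w.d 1 u1⁻¹ = w.len u1 := by rw [w.d_one, w.len_inv]
  have n2 : w.d 1 u2⁻¹ = w.len u2 := by rw [w.d_one, w.len_inv]
  have n3 : w.d 1 (u1 * u2)⁻¹ = w.len u1 + w.len u2 := by rw [w.d_one, w.len_inv, h]
  have n4 : w.d 1 u1 = w.len u1 := w.d_one _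
  have n5 : w.d 1 u2 = w.len u2 := w.d_one _
  have n6 : w.d 1 (u1 * u2) = w.len u1 + w.len u2 := by rw [w.d_one, h]
  -- Gromov products of consecutive points, propagated
  -- (x|z) ≥ min ((x|y), (y|z)) - D / 2
  have gp : ∀ x y z : G, w.d x z + w.d 1 y ≤ max (w.d x y + w.d 1 z) (w.d y z + w.d 1 x) + w.D := by
    intro x y z
    have := w.fp x z 1 y
    rw [w.d_comm x 1, w.d_comm z y, w.d_comm z 1] at this
    omega
  have g1 := gp u1⁻¹ u1 (u1 * u2)
  have g2 := gp u1⁻¹ (u1 * u2) (u1 * u2)⁻¹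
  have g3 := gp u1⁻¹ (u1 * u2)⁻¹ u2⁻¹
  have g4 := gp u1⁻¹ u2⁻¹ u2
  rw [w.d_comm u1⁻¹ u1] at g1
  rw [w.d_comm (u1 * u2)⁻¹ u2⁻¹] at g3
  rw [w.d_comm u2⁻¹ u2] at g4
  omega

theorem lin_of (w : GH G) (nw : NW w) {x : G} (hx : ¬ IsOfFinOrder x) :
    ∃ T : ℕ, ∀ m : ℕ, m ≤ T * w.len (x ^ m) := by
  obtain ⟨P⟩ := exists_pax' (hyp w nw) hx
  refine ⟨P.c, fun m => ?_⟩
  have h1 := P.lin (m * (P.c + 1))
  have h2 : w.len (x ^ (m * (P.c + 1))) ≤ (P.c + 1) * w.len (x ^ m) := by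
    rw [pow_mul]
    exact w.surv_len_pow _ _
  have h3 : P.c * (hyp w nw).len (x ^ (m * (P.c + 1))) ≤ P.c * ((P.c + 1) * w.len (x ^ m)) :=
    Nat.mul_le_mul_left _ h2
  have h4 : P.c * ((P.c + 1) * w.len (x ^ m)) = (P.c + 1) * (P.c * w.len (x ^ m)) := by ring
  by_contra hcon
  push Not at hcon
  have h5 : (P.c + 1) * (P.c * w.len (x ^ m) + 1) ≤ (P.c + 1) * m := Nat.mul_le_mul_left _ hcon
  have h6 : (P.c + 1) * (P.c * w.len (x ^ m) + 1) = (P.c + 1) * (P.c * w.len (x ^ m)) + P.c + 1 := by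
    ring
  have h7 : (P.c + 1) * m = m * (P.c + 1) := by ring
  omega

theorem conj_pow' (g z : G) (m : ℕ) : (g⁻¹ * z * g) ^ m = g⁻¹ * z ^ m * g := by
  have := conj_pow (a := g⁻¹) (b := z) (i := m)
  rwa [inv_inv] at this

theorem stab (w : GH G) (nw : NW w) : ∃ T : ℕ, w.Stab T := by
  classical
  have hT : ∀ x : G, ∃ T : ℕ, ¬ IsOfFinOrder x → ∀ m : ℕ, m ≤ T * w.len (x ^ m) := by
    intro x
    by_cases hx : IsOfFinOrder x
    · exact ⟨0, fun h => absurd hx h⟩
    · obtain ⟨T, h⟩ := lin_of w nw hx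
      exact ⟨T, fun _ => h⟩
  choose t ht using hT
  set T := (nw.fb (4 * w.D + 4)).toFinset.sup t + 1 with hTdef
  refine ⟨T, ?_⟩
  intro g hg m
  obtain ⟨_, ⟨u, rfl⟩, hu⟩ := (Nat.lt_wfRel.wf).has_min
    (Set.range fun u : G => w.len (u⁻¹ * g * u)) ⟨_, 1, rfl⟩
  have hmin : ∀ v : G, w.len (u⁻¹ * g * u) ≤ w.len (v⁻¹ * g * v) :=
    fun v => not_lt.1 (hu _ ⟨v, rfl⟩)
  set y := u⁻¹ * g * u with hy
  have hycm : w.CMin y := by
    intro v
    have := hmin (u * v)
    rwa [show (u * v)⁻¹ * g * (u * v) = v⁻¹ * y * v by rw [hy]; group] at this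
  have hyinf : ¬ IsOfFinOrder y := by
    intro hf
    apply hg
    obtain ⟨k, hk, hk1⟩ := isOfFinOrder_iff_pow_eq_one.1 hf
    refine isOfFinOrder_iff_pow_eq_one.2 ⟨k, hk, ?_⟩
    rw [hy, conj_pow'] at hk1
    have : g ^ k = u * (u⁻¹ * g ^ k * u) * u⁻¹ := by group
    rw [this, hk1]; group
  have hyl : ∀ m : ℕ, m ≤ T * w.len (y ^ m) := by
    intro m
    rcases Nat.lt_or_ge (w.len y) (4 * w.D + 4) with h1 | h1
    · have h2 : t y ≤ (nw.fb (4 * w.D + 4)).toFinset.sup t :=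
        Finset.le_sup (by
          rw [Set.Finite.mem_toFinset]
          exact h1.le)
      have h3 := ht y hyinf m
      exact h3.trans (Nat.mul_le_mul_right _ (by omega))
    · have h2 := (w.sup_of_cmin hycm h1).1
      have h3 := w.surv_sup_pow h2 m
      have h4 : m * (2 * w.D + 1) ≤ m * w.len y := Nat.mul_le_mul_left _ (by omega)
      have h5 : m * (2 * w.D + 1) = m * (2 * w.D) + m := by ring
      have h6 : 1 * w.len (y ^ m) ≤ T * w.len (y ^ m) := Nat.mul_le_mul_right _ (by omega)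
      omega
  -- homogeneity
  set k := 2 * (T * w.len u) + 1 with hk
  have h1 := hyl (m * k)
  have h2 : w.len (y ^ (m * k)) ≤ k * w.len (g ^ m) + 2 * w.len u := by
    rw [hy, conj_pow']
    have a1 := w.len_mul (u⁻¹ * g ^ (m * k)) u
    have a2 := w.len_mul u⁻¹ (g ^ (m * k))
    rw [w.len_inv] at a2
    have a3 := w.surv_len_pow (g ^ m) k
    rw [← pow_mul] at a3
    omega
  have h3 : T * w.len (y ^ (m * k)) ≤ T * (k * w.len (g ^ m) + 2 * w.len u) :=
    Nat.mul_le_mul_left _ h2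
  have h4 : T * (k * w.len (g ^ m) + 2 * w.len u) = k * (T * w.len (g ^ m)) + 2 * (T * w.len u) := by
    ring
  by_contra hcon
  push Not at hcon
  have h5 : k * (T * w.len (g ^ m) + 1) ≤ k * m := Nat.mul_le_mul_left _ hcon
  have h6 : k * (T * w.len (g ^ m) + 1) = k * (T * w.len (g ^ m)) + k := by ring
  have h7 : k * m = m * k := by ring
  omega

/-- displacement of points on a geodesic -/
theorem disp (w : GH G) {K : ℕ} {q g t : G} (hg : g ∈ w.SD K q)
    (ht : w.d 1 t + w.d t q = w.d 1 q) : w.len (t⁻¹ * g * t) ≤ K + w.D := by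
  obtain ⟨h1, h2⟩ := hg
  have e1 : w.len (t⁻¹ * g * t) = w.d t (g * t) := by
    unfold GH.d
    congr 1
    group
  have e2 : w.len (q⁻¹ * g * q) = w.d q (g * q) := by
    unfold GH.d
    congr 1
    group
  have e3 : w.d 1 g = w.len g := w.d_one g
  rw [e1]
  rw [e2] at h2
  have a1 := w.fp t (g * t) 1 q
  have a2 := w.d_tri (g * t) (g * q) q
  have a3 : w.d (g * t) (g * q) = w.d t q := w.d_mul _ _ _
  have a4 := w.d_tri 1 g (g * t)
  have a5 : w.d g (g * t) = w.d 1 t := by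
    have := w.d_mul g 1 t
    rwa [mul_one] at this
  rw [w.d_comm (g * q) q] at a2
  rw [w.d_comm t 1, w.d_comm (g * t) 1] at a1
  omega

theorem acy (w : GH G) (nw : NW w) (K : ℕ) : ∃ B : ℕ, w.Acy K B := by
  classical
  have hfb := nw.fb (K + w.D)
  set Bs := hfb.toFinset with hBs
  set S := Bs ×ˢ Bs with hS
  set sp := 6 * w.D + 2 with hsp
  set Nn := 2 * S.card + 1 with hNn
  refine ⟨sp * Nn, ?_⟩
  intro q hq g hg
  -- main claim
  have main : ∀ h ∈ w.SD K q, ∃ (t z : G), ¬ IsOfFinOrder z ∧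
      t⁻¹ * g * t * z = z * (t⁻¹ * g * t) ∧ t⁻¹ * h * t * z = z * (t⁻¹ * h * t) := by
    intro h hh
    obtain ⟨γ, hγ0, hγ1, hγ⟩ := w.exists_geod 1 q
    have hdq : w.d 1 q = w.len q := w.d_one q
    have hin : ∀ i, i ∈ Finset.range Nn → i * sp ≤ w.d 1 q := by
      intro i hi
      rw [Finset.mem_range] at hi
      have : i * sp ≤ Nn * sp := Nat.mul_le_mul_right _ hi.le
      have e : Nn * sp = sp * Nn := by ring
      omega
    have hgd : ∀ i j, i ≤ j → j ∈ Finset.range Nn → w.d (γ (i * sp)) (γ (j * sp)) = j * sp - i * sp := by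
      intro i j hij hj
      exact hγ.sub (Nat.mul_le_mul_right _ hij) (hin j hj)
    have hon : ∀ i ∈ Finset.range Nn, w.d 1 (γ (i * sp)) + w.d (γ (i * sp)) q = w.d 1 q := by
      intro i hi
      have h1 := hγ.sub (Nat.zero_le (i * sp)) (hin i hi)
      have h2 := hγ.sub (hin i hi) le_rfl
      rw [hγ0] at h1
      rw [hγ1] at h2
      have := hin i hi
      omega
    let f : ℕ → G × G := fun i =>
      ((γ (i * sp))⁻¹ * g * γ (i * sp), (γ (i * sp))⁻¹ * h * γ (i * sp))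
    have hmaps : ∀ i ∈ Finset.range Nn, f i ∈ S := by
      intro i hi
      rw [hS, Finset.mem_product]
      refine ⟨?_, ?_⟩
      · rw [hBs, Set.Finite.mem_toFinset]
        exact disp w hg (hon i hi)
      · rw [hBs, Set.Finite.mem_toFinset]
        exact disp w hh (hon i hi)
    obtain ⟨y, -, hy⟩ := Finset.exists_lt_card_fiber_of_mul_lt_card_of_maps_to (n := 2) hmaps
      (by rw [Finset.card_range]; omega)
    obtain ⟨a, b, c, ha, hb, hc, hab, hbc⟩ : ∃ a b c : ℕ,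
        a ∈ (Finset.range Nn).filter (fun i => f i = y) ∧
        b ∈ (Finset.range Nn).filter (fun i => f i = y) ∧
        c ∈ (Finset.range Nn).filter (fun i => f i = y) ∧ a < b ∧ b < c := by
      obtain ⟨a, ha, b, hb, c, hc, h1, h2, h3⟩ := Finset.two_lt_card.1 hy
      rcases lt_trichotomy a b with h4 | h4 | h4
      · rcases lt_trichotomy b c with h5 | h5 | h5
        · exact ⟨a, b, c, ha, hb, hc, h4, h5⟩
        · exact absurd h5 h3
        · rcases lt_trichotomy a c with h6 | h6 | h6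
          · exact ⟨a, c, b, ha, hc, hb, h6, h5⟩
          · exact absurd h6 h2
          · exact ⟨c, a, b, hc, ha, hb, h6, h4⟩
      · exact absurd h4 h1
      · rcases lt_trichotomy a c with h5 | h5 | h5
        · exact ⟨b, a, c, hb, ha, hc, h4, h5⟩
        · exact absurd h5 h2
        · rcases lt_trichotomy b c with h6 | h6 | h6
          · exact ⟨b, c, a, hb, hc, ha, h6, h5⟩
          · exact absurd h6 h3
          · exact ⟨c, b, a, hc, hb, ha, h6, h4⟩
    rw [Finset.mem_filter] at ha hb hc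
    have hfab : f a = f b := ha.2.trans hb.2.symm
    have hfbc : f b = f c := hb.2.trans hc.2.symm
    have ga : (γ (a * sp))⁻¹ * g * γ (a * sp) = (γ (b * sp))⁻¹ * g * γ (b * sp) :=
      congrArg Prod.fst hfab
    have gb : (γ (b * sp))⁻¹ * g * γ (b * sp) = (γ (c * sp))⁻¹ * g * γ (c * sp) :=
      congrArg Prod.fst hfbc
    have ka : (γ (a * sp))⁻¹ * h * γ (a * sp) = (γ (b * sp))⁻¹ * h * γ (b * sp) :=
      congrArg Prod.snd hfab
    have kb : (γ (b * sp))⁻¹ * h * γ (b * sp) = (γ (c * sp))⁻¹ * h * γ (c * sp) :=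
      congrArg Prod.snd hfbc
    have cc : ∀ x P Q : G, P⁻¹ * x * P = Q⁻¹ * x * Q →
        P⁻¹ * x * P * (P⁻¹ * Q) = P⁻¹ * Q * (P⁻¹ * x * P) := by
      intro x P Q hx
      conv_rhs => rw [hx]
      group
    have l1 : w.len ((γ (a * sp))⁻¹ * γ (b * sp)) = b * sp - a * sp := hgd a b hab.le hb.1
    have l2 : w.len ((γ (b * sp))⁻¹ * γ (c * sp)) = c * sp - b * sp := hgd b c hbc.le hc.1
    have l3 : w.len ((γ (a * sp))⁻¹ * γ (c * sp)) = c * sp - a * sp :=
      hgd a c (hab.le.trans hbc.le) hc.1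
    have m1 : (a + 1) * sp ≤ b * sp := Nat.mul_le_mul_right _ hab
    have m2 : (b + 1) * sp ≤ c * sp := Nat.mul_le_mul_right _ hbc
    have m3 : (a + 1) * sp = a * sp + sp := by ring
    have m4 : (b + 1) * sp = b * sp + sp := by ring
    have e12 : (γ (a * sp))⁻¹ * γ (b * sp) * ((γ (b * sp))⁻¹ * γ (c * sp)) =
        (γ (a * sp))⁻¹ * γ (c * sp) := by group
    rcases one_inf w nw (u1 := (γ (a * sp))⁻¹ * γ (b * sp)) (u2 := (γ (b * sp))⁻¹ * γ (c * sp))
      (by rw [e12, l1, l2, l3]; omega) (by rw [l1]; omega) (by rw [l2]; omega) with h1 | h1 | h1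
    · exact ⟨γ (a * sp), _, h1, cc g _ _ ga, cc h _ _ ka⟩
    · exact ⟨γ (b * sp), _, h1, cc g _ _ gb, cc h _ _ kb⟩
    · rw [e12] at h1
      exact ⟨γ (a * sp), _, h1, cc g _ _ (ga.trans gb), cc h _ _ (ka.trans kb)⟩
  refine ⟨?_, ?_⟩
  · intro hf
    by_contra hne
    obtain ⟨t, z, hz, h1, -⟩ := main g hg
    apply hz
    refine nw.com (t⁻¹ * g * t) z ?_ ?_ h1
    · intro h2
      apply hne
      have : g = t * (t⁻¹ * g * t) * t⁻¹ := by group
      rw [this, h2]; group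
    · exact fin_conj hf
  · intro h hh
    obtain ⟨t, z, hz, h1, h2⟩ := main h hh
    obtain ⟨x, ⟨j, hj⟩, hx, hcx, -⟩ := ost (nice w nw) z hz
    have hj0 : j ≠ 0 := by
      rintro rfl
      apply hz
      rw [← hj, zpow_zero]
      exact IsOfFinOrder.one
    rw [← hj] at h1 h2
    obtain ⟨a, ha⟩ := hcx _ j hj0 h1
    obtain ⟨b, hb⟩ := hcx _ j hj0 h2
    have ha' : x ^ a = t⁻¹ * g * t := ha
    have hb' : x ^ b = t⁻¹ * h * t := hb
    have hc : x ^ a * x ^ b = x ^ b * x ^ a := by rw [← zpow_add, ← zpow_add, add_comm]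
    rw [ha', hb'] at hc
    calc g * h = t * (t⁻¹ * g * t * (t⁻¹ * h * t)) * t⁻¹ := by group
      _ = t * (t⁻¹ * h * t * (t⁻¹ * g * t)) * t⁻¹ := by rw [hc]
      _ = h * g := by group

theorem t : S_ACY := by
  intro G _ w nw
  obtain ⟨T, hT⟩ := stab w nw
  exact ⟨T, hT, fun K => acy w nw K⟩

end Pool.Agent.Y33.SM.Acy
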