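import Pool.Agent.Y33.SM.Stm
import Pool.Agent.TH54.BU.FamLS
import Pool.Agent.TH54.BU.ConeA
import Pool.Agent.TH54.BU.WindF

/-! # Assembly of the step, part 1: elementary lemmas (helper33) -/

set_option autoImplicit false

namespace Pool.Agent.Y33.SM

open Pool.Agent.TH54.BU

section Dist

variable {G : Type} [Group G] {w : GH G}

theorem geod_le {γ : ℕ → G} {l : ℕ} (h : w.Geod γ l) {i j : ℕ} (hij : i ≤ j) (hj : j ≤ l) :
    w.d (γ i) (γ j) ≤ j - i := by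
  obtain ⟨k, rfl⟩ := Nat.exists_eq_add_of_le hij
  induction k with
  | zero => simp [w.d_self]
  | succ k ih =>
    have h1 := ih (by omega) (by omega)
    have h2 := h.1 (i + k) (by omega)
    have h3 := w.d_tri (γ i) (γ (i + k)) (γ (i + k + 1))
    rw [← add_assoc]
    omega

theorem geod_eq {γ : ℕ → G} {l : ℕ} (h : w.Geod γ l) {i j : ℕ} (hij : i ≤ j) (hj : j ≤ l) :
    w.d (γ i) (γ j) = j - i := by
  have h1 := geod_le h hij hj
  have h2 := geod_le h (Nat.zero_le i) (hij.trans hj)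
  have h3 := geod_le h hj le_rfl
  have h4 := h.2
  have h5 := w.d_tri (γ 0) (γ i) (γ l)
  have h6 := w.d_tri (γ i) (γ j) (γ l)
  omega

theorem geod_shift {γ : ℕ → G} {l : ℕ} (h : w.Geod γ l) {i k : ℕ} (hk : i + k ≤ l) :
    w.Geod (fun t => γ (i + t)) k := by
  refine ⟨fun t ht => ?_, ?_⟩
  · exact h.1 (i + t) (by omega)
  · have := geod_eq h (Nat.le_add_right i k) hk
    simpa using this

theorem Det.shift {d : G → G → ℕ} {Λ r s : ℕ} {γ : ℕ → G} {i k l : ℕ} (hk : i + k ≤ l)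
    (h : Det d Λ r s (fun t => γ (i + t)) k) : Det d Λ r s γ l := by
  obtain ⟨a, m, b, σ, N, h1, h2, h3, h4, h5, h6, h7, h8, h9, h10⟩ := h
  exact ⟨i + a, i + m, i + b, σ, N, by omega, by omega, by omega, by omega, h5, h6, h7, h8, h9,
    h10⟩

theorem Det.mono {G : Type} {d : G → G → ℕ} {Λ r r' s s' : ℕ} {γ : ℕ → G} {l : ℕ} (hr : r' ≤ r)
    (hs : s ≤ s') (h : Det d Λ r s γ l) : Det d Λ r' s' γ l := by
  obtain ⟨a, m, b, σ, N, h1, h2, h3, h4, h5, h6, h7, h8, h9, h10⟩ := h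
  exact ⟨a, m, b, σ, N, h1, h2, h3, by omega, by omega, h6, h7, h8, h9,
    fun k hk => hr.trans (h10 k hk)⟩

theorem Det.congr {G : Type} {d : G → G → ℕ} {Λ r s : ℕ} {γ γ' : ℕ → G} {l : ℕ}
    (he : ∀ i ≤ l, γ' i = γ i) (h : Det d Λ r s γ l) : Det d Λ r s γ' l := by
  obtain ⟨a, m, b, σ, N, h1, h2, h3, h4, h5, h6, h7, h8, h9, h10⟩ := h
  refine ⟨a, m, b, σ, N, h1, h2, h3, h4, h5, ?_, ?_, h8, h9, ?_⟩
  · rw [he a (by omega)]; exact h6
  · rw [he b (by omega)]; exact h7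
  · rw [he m (by omega)]; exact h10

theorem path_le {σ : ℕ → G} {N : ℕ} (h : ∀ k, k < N → w.d (σ k) (σ (k + 1)) ≤ 1) {i j : ℕ}
    (hij : i ≤ j) (hj : j ≤ N) : w.d (σ i) (σ j) ≤ j - i := by
  obtain ⟨k, rfl⟩ := Nat.exists_eq_add_of_le hij
  induction k with
  | zero => simp [w.d_self]
  | succ k ih =>
    have h1 := ih (by omega) (by omega)
    have h2 := h (i + k) (by omega)
    have h3 := w.d_tri (σ i) (σ (i + k)) (σ (i + k + 1))
    rw [← add_assoc]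
    omega

variable {M : Subgroup G} [M.Normal] {w' : GH (G ⧸ M)}

theorem QL.d_le (h : QL w M w') (u v : G) : w'.d (u : G ⧸ M) (v : G ⧸ M) ≤ w.d u v :=
  h.le (u⁻¹ * v)

theorem QL.d_eq {R : ℕ} (hR : ∀ g : G, w.len g ≤ R → w'.len (g : G ⧸ M) = w.len g)
    {u v : G} (h : w.d u v ≤ R) : w'.d (u : G ⧸ M) (v : G ⧸ M) = w.d u v :=
  hR (u⁻¹ * v) h

/-- small detours persist in the quotient -/
theorem Det.quot (hq : QL w M w') {R : ℕ}
    (hR : ∀ g : G, w.len g ≤ R → w'.len (g : G ⧸ M) = w.len g) {Λ r s : ℕ} {γ : ℕ → G} {l : ℕ}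
    (hγ : w.Geod γ l) (hs : 2 * s ≤ R) (h : Det w.d Λ r s γ l) :
    Det w'.d Λ r s (fun j => (γ j : G ⧸ M)) l := by
  obtain ⟨a, m, b, σ, N, h1, h2, h3, h4, h5, h6, h7, h8, h9, h10⟩ := h
  refine ⟨a, m, b, fun j => (σ j : G ⧸ M), N, h1, h2, h3, h4, h5, by simp only [h6],
    by simp only [h7], ?_, ?_, ?_⟩
  · intro k hk
    exact (hq.d_le _ _).trans (h8 k hk)
  · intro k k' hk hk'
    have e1 := path_le h8 hk hk'
    have e2 : w'.d (σ k : G ⧸ M) (σ k' : G ⧸ M) = w.d (σ k) (σ k') :=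
      QL.d_eq hR (by omega)
    rw [e2]
    exact h9 k k' hk hk'
  · intro k hk
    have e1 := path_le h8 (Nat.zero_le k) hk
    have e2 := geod_le hγ h1 (h2.trans h3)
    rw [h6] at e1
    have e3 := w.d_tri (σ k) (γ a) (γ m)
    rw [w.d_comm (σ k) (γ a)] at e3
    have e4 : w'.d (σ k : G ⧸ M) (γ m : G ⧸ M) = w.d (σ k) (γ m) :=
      QL.d_eq hR (by omega)
    rw [e4]
    exact h10 k hk

/-- lifting geodesics -/
theorem QL.lift_geod (h : QL w M w') {γ' : ℕ → G ⧸ M} {l : ℕ} (hγ : w'.Geod γ' l) :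
    ∃ γ : ℕ → G, w.Geod γ l ∧ ∀ i, (γ i : G ⧸ M) = γ' i := by
  choose s hs1 hs2 using h.lift
  obtain ⟨g0, hg0, -⟩ := h.lift (γ' 0)
  obtain ⟨γ, h0, hS⟩ : ∃ γ : ℕ → G, γ 0 = g0 ∧
      ∀ i, γ (i + 1) = γ i * s ((γ' i)⁻¹ * γ' (i + 1)) :=
    ⟨fun i => Nat.rec g0 (fun i x => x * s ((γ' i)⁻¹ * γ' (i + 1))) i, rfl, fun i => rfl⟩
  have hc : ∀ i, ((γ i : G) : G ⧸ M) = γ' i := by
    intro i
    induction i with
    | zero => rw [h0]; exact hg0
    | succ i ih =>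
      rw [hS, QuotientGroup.mk_mul, ih, hs1]
      group
  have hst : ∀ i, i < l → w.d (γ i) (γ (i + 1)) ≤ 1 := by
    intro i hi
    have e1 : w.d (γ i) (γ (i + 1)) = w'.d (γ' i) (γ' (i + 1)) := by
      unfold GH.d
      rw [hS, inv_mul_cancel_left, hs2]
    rw [e1]
    exact hγ.1 i hi
  refine ⟨γ, ⟨hst, le_antisymm ?_ ?_⟩, hc⟩
  · have := path_le hst (Nat.zero_le l) le_rfl
    simpa using this
  · have h1 := h.d_le (γ 0) (γ l)
    rw [hc, hc, hγ.2] at h1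
    exact h1

end Dist

theorem str_not {G : Type} [Group G] {w : GH G} {h : G} (hs : Str w h) : ¬ IsOfFinOrder h := by
  intro hf
  obtain ⟨m, hm, h1⟩ := isOfFinOrder_iff_pow_eq_one.1 hf
  have := hs m
  rw [h1, w.len_one] at this
  omega

theorem str_zpow {G : Type} [Group G] {w : GH G} {h : G} (hs : Str w h) (z : ℤ) :
    w.len (h ^ z) = z.natAbs := by
  rcases Int.natAbs_eq z with e | e
  · conv_lhs => rw [e, zpow_natCast]
    exact hs _
  · conv_lhs => rw [e, zpow_neg, w.len_inv, zpow_natCast]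
    exact hs _

theorem NC.symm {G : Type} [Group G] {w : GH G} {h h' : G}
    (hc : NC h h') (hs : Str w h) : NC h' h := by
  intro g p q hp he
  have hq : q ≠ 0 := by
    rintro rfl
    rw [zpow_zero] at he
    have h1 : h ^ p = 1 := by
      have : h ^ p = g⁻¹ * (g * h ^ p * g⁻¹) * g := by group
      rw [this, he]; group
    have h2 := str_zpow hs p
    rw [h1, w.len_one] at h2
    omega
  refine hc g⁻¹ q p hq ?_
  rw [← he]
  group

theorem exists_Pj {G : Type} [Group G] (w : GH G) {h : G} (hs : Str w h) :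
    ∃ (e : ℕ) (k : G → ℤ), Pj w h e k := by
  have hsup : w.Sup 0 h := by
    intro a b
    rw [hs, hs, hs]
    omega
  have hl : w.len h ≤ 1 := by
    have := hs 1
    rw [pow_one] at this
    omega
  obtain ⟨k, h1, h2, h3, -⟩ := w.exists_pax (str_not hs) hsup hl
  refine ⟨10 * (w.D + 0 + 1 + 1), k, ⟨h1, h2, ?_⟩⟩
  intro g g' hgg
  have := h3 g g' (by rw [str_zpow hs]; exact hgg)
  rw [str_zpow hs] at this
  exact this

/-- the dichotomy -/
theorem dich {G : Type} [Group G] {w : GH G} {h : G} (hs : Str w h) {e : ℕ} {k : G → ℤ}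
    (pj : Pj w h e k) {γ : ℕ → G} {l : ℕ} (hγ : w.Geod γ l) {g : G} {A : ℕ} (hA : e ≤ A)
    (hg : A < (k (g * γ 0) - k (g * γ l)).natAbs) :
    ∃ (i j : ℕ) (g' : G) (p q : ℤ), i ≤ j ∧ j ≤ l ∧ i + A ≤ j + e ∧
      w.d (γ i) (g' * h ^ p) ≤ e + w.D ∧ w.d (γ j) (g' * h ^ q) ≤ e + w.D := by
  have h1 := pj.proj (g * γ 0) (g * γ l) (by omega)
  set p := k (g * γ 0) with hp
  set q := k (g * γ l) with hq
  set P := g⁻¹ * h ^ p with hP
  set Q := g⁻¹ * h ^ q with hQ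
  have e1 : w.d (g * γ 0) (h ^ p) = w.d (γ 0) P := by
    rw [← w.d_mul g (γ 0) P, hP, mul_inv_cancel_left]
  have e2 : w.d (g * γ l) (h ^ q) = w.d (γ l) Q := by
    rw [← w.d_mul g (γ l) Q, hQ, mul_inv_cancel_left]
  have e3 : w.d (g * γ 0) (g * γ l) = l := by rw [w.d_mul]; exact hγ.2
  have e4 : w.d P Q = (p - q).natAbs := by
    rw [hP, hQ, w.d_mul]
    unfold GH.d
    rw [← zpow_neg, ← zpow_add, str_zpow hs]
    omega
  rw [e1, e2, e3] at h1
  have hx1 : w.d (γ 0) P ≤ l := by omega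
  have hx2 : w.d (γ l) Q ≤ l := by omega
  refine ⟨w.d (γ 0) P, l - w.d (γ l) Q, g⁻¹, p, q, by omega, by omega, by omega, ?_, ?_⟩
  · have a1 := geod_eq hγ (Nat.zero_le (w.d (γ 0) P)) hx1
    have a2 := geod_eq hγ hx1 le_rfl
    have a3 := w.fp (γ (w.d (γ 0) P)) P (γ 0) (γ l)
    have a4 := w.d_tri P Q (γ l)
    rw [w.d_comm Q (γ l)] at a4
    rw [w.d_comm (γ (w.d (γ 0) P)) (γ 0), w.d_comm P (γ 0)] at a3
    have a5 : w.d (γ 0) (γ l) = l := hγ.2
    rw [← hP]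
    omega
  · have hj : l - w.d (γ l) Q ≤ l := Nat.sub_le _ _
    have a1 := geod_eq hγ (Nat.zero_le (l - w.d (γ l) Q)) hj
    have a2 := geod_eq hγ hj le_rfl
    have a3 := w.fp (γ (l - w.d (γ l) Q)) Q (γ 0) (γ l)
    have a4 := w.d_tri (γ 0) P Q
    rw [w.d_comm (γ (l - w.d (γ l) Q)) (γ 0), w.d_comm Q (γ l), w.d_comm Q (γ 0)] at a3
    have a5 : w.d (γ 0) (γ l) = l := hγ.2
    rw [← hQ]
    omega

end Pool.Agent.Y33.SM
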