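import Pool.Agent.TH54.BU.Defs

/-!
# Sparse scale monsters: definitions (helper33, project SM, MP_021201_al)

`w : GH G` is a hyperbolic word length on a group; `NW w` says that balls are finite, there is no
element of order two and centralizers of non trivial torsion elements are torsion groups.
-/

set_option autoImplicit false

namespace Pool.Agent.Y33.SM

open Pool.Agent.TH54.BU

/-- finite balls, no involution, centralizers of torsion elements are torsion -/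
structure NW {G : Type} [Group G] (w : GH G) : Prop where
  fb : ∀ n : ℕ, {g : G | w.len g ≤ n}.Finite
  odd : ∀ g : G, g ^ 2 = 1 → g = 1
  com : ∀ a g : G, a ≠ 1 → IsOfFinOrder a → a * g = g * a → IsOfFinOrder g

/-- the powers of `h` are geodesic -/
def Str {G : Type} [Group G] (w : GH G) (h : G) : Prop := ∀ k : ℕ, w.len (h ^ k) = k

/-- no non trivial power of `h'` is conjugate to a power of `h` -/
def NC {G : Type} [Group G] (h h' : G) : Prop :=
  ∀ (g : G) (p q : ℤ), p ≠ 0 → g * h' ^ p * g⁻¹ ≠ h ^ q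

/-- `k` is the coordinate of a nearest point on the line of the powers of `h` -/
structure Pj {G : Type} [Group G] (w : GH G) (h : G) (e : ℕ) (k : G → ℤ) : Prop where
  shift : ∀ (j : ℤ) (g : G), k (h ^ j * g) = k g + j
  near : ∀ (g : G) (j : ℤ), w.d g (h ^ k g) ≤ w.d g (h ^ j)
  proj : ∀ g g' : G, e < (k g - k g').natAbs →
    w.d g (h ^ k g) + (k g - k g').natAbs + w.d g' (h ^ k g') ≤ w.d g g' + e

/-- the translates of the line of `x` have projections of diameter at most `A` to the line of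
`h` -/
def HF {G : Type} [Group G] (k : G → ℤ) (A : ℕ) (x : G) : Prop :=
  ∀ (g : G) (p q : ℤ), (k (g * x ^ p) - k (g * x ^ q)).natAbs ≤ A

/-- one step of the construction: `w` is the word length, `κ` the scale, `F` is the length `w`
divided by `κ`, `L` is the system of lines of the elements of `X` (conjugation minimal primitive
elements with length between `κ` and `5 κ`), and `M` is the normal closure of the `n`-th powers -/
structure Ctx {G : Type} [Group G] (w : GH G) (κ n : ℕ) {F : GH G} (L : LS F 1100 234003 2)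
    (X : Set G) (M : Subgroup G) : Prop where
  nw : NW w
  hκ : 1000 * (w.D + 1) ≤ κ
  hn : 10 ^ 12 ≤ n
  odd : Odd n
  FD : F.D = 4
  resc : ∀ g, F.len g = (w.len g + κ - 1) / κ
  stab : ∃ T, F.Stab T
  acy : F.Acy 500 12003
  mem : ∀ i, L.x i ∈ X
  cov : ∀ x ∈ X, ∃ (i : L.ι) (u : G), x = u * L.x i * u⁻¹ ∨ x = u * (L.x i)⁻¹ * u⁻¹
  prim : ∀ x ∈ X, Prim x
  cmin : ∀ x ∈ X, w.CMin x
  lo : ∀ x ∈ X, κ ≤ w.len x
  hi : ∀ x ∈ X, w.len x ≤ 5 * κ
  fil : L.Fil n M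

/-- `w'` is the quotient length -/
structure QL {G : Type} [Group G] (w : GH G) (M : Subgroup G) [M.Normal] (w' : GH (G ⧸ M)) :
    Prop where
  le : ∀ g : G, w'.len (g : G ⧸ M) ≤ w.len g
  lift : ∀ q : G ⧸ M, ∃ g : G, (g : G ⧸ M) = q ∧ w.len g = w'.len q

/-- `ζ` is a path from `1` to `x` of length `|x|`, extended periodically -/
structure Per {G : Type} [Group G] (w : GH G) (x : G) (ζ : ℤ → G) : Prop where
  zero : ζ 0 = 1
  per : ∀ j : ℤ, ζ (j + w.len x) = x * ζ j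
  step : ∀ j : ℤ, w.d (ζ j) (ζ (j + 1)) ≤ 1

/-- a part of the path `γ` of length comparable with `κ` is close to a translate of the periodic
path of `x` (up to a reversal of the direction) -/
def CapX {G : Type} [Group G] (w : GH G) (κ : ℕ) (x : G) (E : ℕ) (γ : ℕ → G) (l : ℕ) : Prop :=
  ∃ ζ : ℤ → G, Per w x ζ ∧ ∃ (g : G) (s m t : ℤ) (i0 j0 k0 : ℕ),
    (i0 ≤ j0 ∧ j0 ≤ k0 ∨ k0 ≤ j0 ∧ j0 ≤ i0) ∧ i0 ≤ l ∧ k0 ≤ l ∧
    (κ : ℤ) ≤ 5 * (m - s) ∧ (κ : ℤ) ≤ 5 * (t - m) ∧ t - s ≤ 10 * κ ∧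
    w.d (γ i0) (g * ζ s) ≤ E ∧ w.d (γ j0) (g * ζ m) ≤ E ∧ w.d (γ k0) (g * ζ t) ≤ E

/-- a detour: a path `σ` of length at most `s` between two points of `γ`, with quasi-geodesic
constant `Λ`, which stays at distance at least `r` from some point of `γ` between them -/
def Det {G : Type} (d : G → G → ℕ) (Λ r s : ℕ) (γ : ℕ → G) (l : ℕ) : Prop :=
  ∃ (i m j : ℕ) (σ : ℕ → G) (N : ℕ), i ≤ m ∧ m ≤ j ∧ j ≤ l ∧ j ≤ i + s ∧ N ≤ s ∧
    σ 0 = γ i ∧ σ N = γ j ∧ (∀ k, k < N → d (σ k) (σ (k + 1)) ≤ 1) ∧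
    (∀ k k', k ≤ k' → k' ≤ N → k' - k ≤ Λ * d (σ k) (σ k')) ∧
    ∀ k, k ≤ N → r ≤ d (σ k) (γ m)

/-- long geodesics with both ends close to a translate of the line of `h` have detours -/
def PH {G : Type} [Group G] (w : GH G) (Λ : ℕ) (h : G) (r : ℕ) : Prop :=
  ∀ E : ℕ, ∃ s : ℕ, ∀ (γ : ℕ → G) (l : ℕ), w.Geod γ l → s ≤ l →
    (∃ (g : G) (p q : ℤ), w.d (γ 0) (g * h ^ p) ≤ E ∧ w.d (γ l) (g * h ^ q) ≤ E) →
    Det w.d Λ r s γ l

/-- from the scale `D0` on, paths from `h ^ t` to `h ^ (-t)` of length at most `C t` come at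
distance less than `t / r` from the origin -/
def Cut {G : Type} [Group G] (d : G → G → ℕ) (h : G) (C r D0 t1 : ℕ) : Prop :=
  ∀ t : ℕ, D0 ≤ t → t ≤ t1 → ∀ (σ : ℕ → G) (N : ℕ), (∀ k, k < N → d (σ k) (σ (k + 1)) ≤ 1) →
    σ 0 = h ^ t → σ N = (h ^ t)⁻¹ → (∀ k, k ≤ N → t ≤ r * d 1 (σ k)) → C * t < N

/-- the vertices of the broken geodesic line of `x0 = u * t` : `…, 1, u, x0, x0 * u, x0 ^ 2, …` -/
def Vx {G : Type} [Group G] (u x0 : G) (a : ℤ) : G := x0 ^ (a / 2) * (if a % 2 = 0 then 1 else u)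

/-- `x0 = u h ^ j h' ^ (2 κ) h ^ j'` where `u` has length `κ` and the corners `j, j'` in
`{1, 2, 3}` are chosen such that the broken line with the vertices `Vx u x0 a` is a
quasi-geodesic, and such that `x0` is not conjugate to an element commuting with `h'` -/
structure Zig {G : Type} [Group G] (w : GH G) (h h' : G) (C κ : ℕ) (u x0 : G) : Prop where
  hu : w.len u = κ
  ex : ∃ j j' : ℕ, 1 ≤ j ∧ j ≤ 3 ∧ 1 ≤ j' ∧ j' ≤ 3 ∧ x0 = u * h ^ j * h' ^ (2 * κ) * h ^ j' ∧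
    h ^ j' * u * h ^ j * h' ≠ h' * (h ^ j' * u * h ^ j)
  len : 2 * κ ≤ w.len (u⁻¹ * x0) + C
  btw : ∀ a b c : ℤ, a ≤ b → b ≤ c →
    w.d (Vx u x0 a) (Vx u x0 b) + w.d (Vx u x0 b) (Vx u x0 c) ≤ w.d (Vx u x0 a) (Vx u x0 c) + C

/-- the free group of rank two -/
abbrev F2 := FreeGroup (Fin 2)

/-- the quotient of the word distance on `F2 ⧸ N` -/
noncomputable def qd (N : Subgroup F2) [N.Normal] (u v : F2 ⧸ N) : ℕ :=
  sInf {k | ∃ f : F2, (f : F2 ⧸ N) = u⁻¹ * v ∧ f.norm = k}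

/-- the image of the generator `i` -/
def gn (N : Subgroup F2) (i : Fin 2) : F2 ⧸ N := (FreeGroup.of i : F2)

/-- the properties of the groups of the sequence -/
def Lev (n : ℕ) (N : Subgroup F2) [N.Normal] (i i' : Fin 2) (r0 : ℕ) : Prop :=
  ∃ w : GH (F2 ⧸ N), (∀ q, w.len q = qd N 1 q) ∧ NW w ∧ Str w (gn N i) ∧ Str w (gn N i') ∧
    NC (gn N i) (gn N i') ∧ PH w (10 ^ 6 * n ^ 2) (gn N i) r0

end Pool.Agent.Y33.SM
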