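import Pool.Agent.Y33.SM.Defs
import Pool.Agent.Y33.LG.Defs

/-!
# Sparse scale monsters: statements of the jobs (helper33, project SM, MP_021201_al)
-/

set_option autoImplicit false

namespace Pool.Agent.Y33.SM

open Pool.Agent.TH54.BU

/-- the quasi-geodesic constant of the detours -/
def Lam (n : ℕ) : ℕ := 10 ^ 6 * n ^ 2

/-- job ACY: stable lengths are bounded below, and the action is acylindrical -/
def S_ACY : Prop := ∀ (G : Type) [Group G] (w : GH G), NW w →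
  ∃ T : ℕ, w.Stab T ∧ ∀ K : ℕ, ∃ B : ℕ, w.Acy K B

/-- job LSX: systems of lines with universal constants at large scales -/
def S_LSX : Prop := ∀ (G : Type) [Group G] (w : GH G), NW w → ∃ κ0 : ℕ, ∀ κ : ℕ, κ0 ≤ κ →
  ∀ X : Set G, (∀ x ∈ X, Prim x ∧ w.CMin x ∧ κ ≤ w.len x ∧ w.len x ≤ 5 * κ) →
    ∃ (F : GH G) (L : LS F 1100 234003 2), F.D = 4 ∧ (∀ g, F.len g = (w.len g + κ - 1) / κ) ∧
      (∃ T, F.Stab T) ∧ F.Acy 500 12003 ∧ (∀ i, L.x i ∈ X) ∧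
      ∀ x ∈ X, ∃ (i : L.ι) (u : G), x = u * L.x i * u⁻¹ ∨ x = u * (L.x i)⁻¹ * u⁻¹

/-- job QIH: hyperbolicity of bi-Lipschitz equivalent discrete geodesic metrics -/
def S_QIH : Prop := ∀ (V : Type) (d e : V → V → ℕ), DM d → DM e → ∀ C D : ℕ,
  (∀ u v, d u v ≤ e u v) → (∀ u v, e u v ≤ C * d u v) → Four d D → ∃ D' : ℕ, Four e D'

/-- job HYP: the quotient length is hyperbolic -/
def S_HYP : Prop := ∃ n0 : ℕ, ∀ (G : Type) [Group G] (w : GH G) (κ n : ℕ) (F : GH G)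
  (L : LS F 1100 234003 2) (X : Set G) (M : Subgroup G) [M.Normal], n0 ≤ n → Ctx w κ n L X M →
    ∃ w' : GH (G ⧸ M), QL w M w'

/-- job MIN: almost minimal elements run along at most half of a relator -/
def S_MIN : Prop := ∀ (G : Type) [Group G] (w : GH G) (κ n : ℕ) (F : GH G)
  (L : LS F 1100 234003 2) (X : Set G) (M : Subgroup G), Ctx w κ n L X M →
    ∀ (t : ℕ) (g : G), t ≤ 10 ^ 6 → (∀ m ∈ M, w.len g ≤ w.len (m * g) + t * κ) →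
      ∀ (i : L.ι) (u : G), 2 * |L.s i u 1 g| ≤ (n : ℤ) + 4 * t + 20000

/-- job TOR: torsion of the quotient -/
def S_TOR : Prop := ∀ (G : Type) [Group G] (w : GH G) (κ n : ℕ) (F : GH G)
  (L : LS F 1100 234003 2) (X : Set G) (M : Subgroup G), Ctx w κ n L X M →
    ∀ (z : G) (m : ℕ), 1 ≤ m → z ^ m ∈ M →
      ∃ k ∈ M, IsOfFinOrder (z * k) ∨ ∃ (g : G) (i : L.ι) (j : ℤ), z * k = g * L.x i ^ j * g⁻¹

/-- job COMA: lifting commutation with a torsion element -/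
def S_COMA : Prop := ∀ (G : Type) [Group G] (w : GH G) (κ n : ℕ) (F : GH G)
  (L : LS F 1100 234003 2) (X : Set G) (M : Subgroup G), Ctx w κ n L X M →
    ∀ a g : G, IsOfFinOrder a → a * g * a⁻¹ * g⁻¹ ∈ M → ∃ k ∈ M, a * (k * g) = (k * g) * a

/-- job COMX: lifting commutation with a power of a relator root -/
def S_COMX : Prop := ∀ (G : Type) [Group G] (w : GH G) (κ n : ℕ) (F : GH G)
  (L : LS F 1100 234003 2) (X : Set G) (M : Subgroup G), Ctx w κ n L X M →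
    ∀ (i : L.ι) (j : ℤ) (g : G), ¬ (n : ℤ) ∣ j →
      L.x i ^ j * g * (L.x i ^ j)⁻¹ * g⁻¹ ∈ M → ∃ k ∈ M, ∃ l : ℤ, g = k * L.x i ^ l

/-- job NICE: torsion in the quotient -/
def S_NICE : Prop := ∀ (G : Type) [Group G] (w : GH G) (κ n : ℕ) (F : GH G)
  (L : LS F 1100 234003 2) (X : Set G) (M : Subgroup G) [M.Normal], Ctx w κ n L X M →
    (∀ q : G ⧸ M, q ^ 2 = 1 → q = 1) ∧
      ∀ a g : G ⧸ M, a ≠ 1 → IsOfFinOrder a → a * g = g * a → IsOfFinOrder g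

/-- job OV: a line with generator of length one has small projection to the relator lines -/
def S_OV : Prop := ∀ (G : Type) [Group G] (w : GH G) (κ n : ℕ) (F : GH G)
  (L : LS F 1100 234003 2) (X : Set G) (M : Subgroup G), Ctx w κ n L X M →
    ∀ h : G, Str w h → ∀ (i : L.ι) (u g : G) (p q : ℤ), L.D i u (g * h ^ p) (g * h ^ q) ≤ 234003

/-- job STR: the powers of `h` remain geodesic, and short elements keep their length -/
def S_STR : Prop := ∀ (G : Type) [Group G] (w : GH G) (κ n : ℕ) (F : GH G)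
  (L : LS F 1100 234003 2) (X : Set G) (M : Subgroup G) [M.Normal], Ctx w κ n L X M →
    ∀ w' : GH (G ⧸ M), QL w M w' →
      (∀ h : G, Str w h → Str w' (h : G ⧸ M)) ∧
      (∀ m ∈ M, m ≠ 1 → n * κ ≤ 10 * w.len m) ∧
      ∀ g : G, 100 * w.len g ≤ n * κ → w'.len (g : G ⧸ M) = w.len g

/-- job NCQ: the two lines remain transverse -/
def S_NCQ : Prop := ∀ (G : Type) [Group G] (w : GH G) (κ n : ℕ) (F : GH G)
  (L : LS F 1100 234003 2) (X : Set G) (M : Subgroup G) [M.Normal], Ctx w κ n L X M →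
    ∀ w' : GH (G ⧸ M), QL w M w' → ∀ h h' : G, Str w h → Str w h' → NC h h' →
      NC (h : G ⧸ M) (h' : G ⧸ M)

/-- job KEY: two almost minimal lifts of the same element have nearly the same projection to the
line of `h` -/
def S_KEY : Prop := ∀ (G : Type) [Group G] (w : GH G) (h : G) (e : ℕ) (k : G → ℤ) (A : ℕ),
  NW w → Str w h → Pj w h e k → ∃ C1 κ0 : ℕ, ∀ κ : ℕ, κ0 ≤ κ → ∀ (n : ℕ) (F : GH G)
    (L : LS F 1100 234003 2) (X : Set G) (M : Subgroup G), Ctx w κ n L X M →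
      (∀ x ∈ X, HF k A x) → ∀ (z m : G), m ∈ M → (∀ m' ∈ M, w.len z ≤ w.len (m' * z) + κ) →
        (∀ m' ∈ M, w.len (m * z) ≤ w.len (m' * z) + κ) → (k z - k (m * z)).natAbs ≤ C1

/-- job CUT: divergence in the direction of `h` in the quotient -/
def S_CUT : Prop := ∀ (G : Type) [Group G] (w : GH G) (h : G) (e : ℕ) (k : G → ℤ) (A C r : ℕ),
  NW w → Str w h → Pj w h e k → ∃ D0 κ0 : ℕ, ∀ κ : ℕ, κ0 ≤ κ → ∀ (n : ℕ) (F : GH G)
    (L : LS F 1100 234003 2) (X : Set G) (M : Subgroup G) [M.Normal], Ctx w κ n L X M →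
      (∀ x ∈ X, HF k A x) → ∀ w' : GH (G ⧸ M), QL w M w' → ∀ t1 : ℕ,
        Cut w'.d (h : G ⧸ M) C r D0 t1

/-- job CAP: segments with small projections to the lines of `h` are captured -/
def S_CAP : Prop := ∀ (G : Type) [Group G] (w : GH G) (h h' : G) (e : ℕ) (k : G → ℤ),
  NW w → Str w h → Str w h' → NC h h' → Pj w h e k → ∃ E : ℕ, ∀ A : ℕ, ∃ A' κ0 : ℕ,
    ∀ κ : ℕ, κ0 ≤ κ → ∀ γ : ℕ → G, w.Geod γ κ →
      (∀ g : G, (k (g * γ 0) - k (g * γ κ)).natAbs ≤ A) →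
        ∃ x : G, Prim x ∧ w.CMin x ∧ κ ≤ w.len x ∧ w.len x ≤ 5 * κ ∧ HF k A' x ∧
          CapX w κ x E γ κ

/-- job CRN: choice of the corners -/
def S_CRN : Prop := ∀ (G : Type) [Group G] (w : GH G) (h h' : G), NW w → Str w h → Str w h' →
  NC h h' → ∃ C : ℕ, ∀ u : G, ∃ j1 j2 j' : ℕ, j1 ≠ j2 ∧ 1 ≤ j1 ∧ j1 ≤ 3 ∧ 1 ≤ j2 ∧ j2 ≤ 3 ∧
    1 ≤ j' ∧ j' ≤ 3 ∧ ∀ N : ℕ, w.len u + N ≤ w.len (u * h ^ j1 * h' ^ N) + C ∧
      w.len u + N ≤ w.len (u * h ^ j2 * h' ^ N) + C ∧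
      w.len u + N ≤ w.len (h' ^ N * h ^ j' * u) + C

/-- job ZIG: the broken lines are quasi-geodesics -/
def S_ZIG : Prop := ∀ (G : Type) [Group G] (w : GH G) (h h' : G), NW w → Str w h → Str w h' →
  NC h h' → ∃ C κ0 : ℕ, ∀ κ : ℕ, κ0 ≤ κ → ∀ u : G, w.len u = κ → ∃ x0 : G, Zig w h h' C κ u x0

/-- job CPR: `x0` is primitive -/
def S_CPR : Prop := ∀ (G : Type) [Group G] (w : GH G) (h h' : G), NW w → Str w h → Str w h' →
  NC h h' → ∀ C : ℕ, ∃ κ0 : ℕ, ∀ κ : ℕ, κ0 ≤ κ → ∀ u x0 : G,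
    Zig w h h' C κ u x0 → Prim x0

/-- job CCM: a conjugate of minimal length of `x0`, and its periodic path -/
def S_CCM : Prop := ∀ (G : Type) [Group G] (w : GH G) (h h' : G), NW w → Str w h →
  Str w h' → ∀ C : ℕ, ∃ E κ0 : ℕ, ∀ κ : ℕ, κ0 ≤ κ → ∀ γ : ℕ → G, w.Geod γ κ → ∀ x0 : G,
    Zig w h h' C κ ((γ 0)⁻¹ * γ κ) x0 → ∃ x v : G, x0 = v * x * v⁻¹ ∧ w.CMin x ∧
      κ ≤ w.len x ∧ w.len x ≤ 5 * κ ∧ CapX w κ x E γ κ ∧
      ∀ p : ℤ, ∃ a : ℤ, w.d (Vx ((γ 0)⁻¹ * γ κ) x0 a) (v * x ^ p) +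
        w.d (v * x ^ p) (Vx ((γ 0)⁻¹ * γ κ) x0 (a + 1)) ≤
          w.d (Vx ((γ 0)⁻¹ * γ κ) x0 a) (Vx ((γ 0)⁻¹ * γ κ) x0 (a + 1)) + E

/-- job CHF: small projections to the lines of `h` -/
def S_CHF : Prop := ∀ (G : Type) [Group G] (w : GH G) (h h' : G) (e : ℕ) (k : G → ℤ),
  NW w → Str w h → Str w h' → NC h h' → Pj w h e k → ∀ C E A : ℕ, ∃ A' κ0 : ℕ,
    ∀ κ : ℕ, κ0 ≤ κ → ∀ u x0 : G, Zig w h h' C κ u x0 →
      (∀ g : G, (k g - k (g * u)).natAbs ≤ A) → ∀ x v : G, x0 = v * x * v⁻¹ →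
        (∀ p : ℤ, ∃ a : ℤ, w.d (Vx u x0 a) (v * x ^ p) + w.d (v * x ^ p) (Vx u x0 (a + 1)) ≤
          w.d (Vx u x0 a) (Vx u x0 (a + 1)) + E) → HF k A' x

/-- job BETA: geodesics which run along relator lines are captured -/
def S_BETA : Prop := ∀ (G : Type) [Group G] (w : GH G), NW w → ∃ E κ0 : ℕ, ∀ κ : ℕ, κ0 ≤ κ →
  ∀ (n : ℕ) (F : GH G) (L : LS F 1100 234003 2) (X : Set G) (M : Subgroup G),
    Ctx w κ n L X M → ∀ (γ : ℕ → G) (l : ℕ), w.Geod γ l → ∀ (i : L.ι) (u : G),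
      10 ^ 6 ≤ |L.s i u (γ 0) (γ l)| → CapX w κ (L.x i) E γ l

/-- job ALPHA: geodesics with ends close to a line of `h'` have small projections to the lines of
`h` -/
def S_ALPHA : Prop := ∀ (G : Type) [Group G] (w : GH G) (h h' : G) (e : ℕ) (k : G → ℤ),
  NW w → Str w h → Str w h' → NC h h' → Pj w h e k → ∃ A0 : ℕ, ∀ E : ℕ, ∃ s0 : ℕ,
    ∀ (γ : ℕ → G) (l : ℕ), w.Geod γ l →
      (∃ (g : G) (p q : ℤ), w.d (γ 0) (g * h' ^ p) ≤ E ∧ w.d (γ l) (g * h' ^ q) ≤ E) →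
        ∀ i j : ℕ, s0 ≤ i → i ≤ j → j + s0 ≤ l →
          ∀ g : G, (k (g * γ i) - k (g * γ j)).natAbs ≤ A0

/-- job A2: geodesics of the quotient with ends close to a line of `h'` -/
def S_A2 : Prop := ∀ (G : Type) [Group G] (w : GH G) (κ n : ℕ) (F : GH G)
  (L : LS F 1100 234003 2) (X : Set G) (M : Subgroup G) [M.Normal], Ctx w κ n L X M →
    ∀ w' : GH (G ⧸ M), QL w M w' → ∀ h' : G, Str w h' → ∀ E : ℕ, ∃ s0 : ℕ,
      ∀ (γ : ℕ → G) (l : ℕ), w.Geod γ l → w'.d (γ 0 : G ⧸ M) (γ l : G ⧸ M) = l → s0 ≤ l →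
        (∃ (g : G ⧸ M) (p q : ℤ), w'.d (γ 0 : G ⧸ M) (g * (h' : G ⧸ M) ^ p) ≤ E ∧
          w'.d (γ l : G ⧸ M) (g * (h' : G ⧸ M) ^ q) ≤ E) →
        (∃ (g : G) (p q : ℤ), w.d (γ 0) (g * h' ^ p) ≤ E ∧ w.d (γ l) (g * h' ^ q) ≤ E) ∨
          ∃ (i : L.ι) (u : G), (n : ℤ) ≤ 8 * |L.s i u (γ 0) (γ l)|

/-- job CIRC: relator circles are embedded in the quotient -/
def S_CIRC : Prop := ∀ (G : Type) [Group G] (w : GH G) (κ n : ℕ) (F : GH G)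
  (L : LS F 1100 234003 2) (X : Set G) (M : Subgroup G) [M.Normal], Ctx w κ n L X M →
    ∀ w' : GH (G ⧸ M), QL w M w' → ∀ x ∈ X, ∀ ζ : ℤ → G, Per w x ζ → ∀ (s : ℤ) (t : ℕ),
      2 * t ≤ (n + 2) * w.len x →
        (t ≤ w.len x → w'.d (ζ s : G ⧸ M) (ζ (s + t) : G ⧸ M) = t) ∧
        (w.len x ≤ t → κ ≤ 4 * w'.d (ζ s : G ⧸ M) (ζ (s + t) : G ⧸ M))

/-- job DET: captured geodesics have detours in the quotient -/
def S_DET : Prop := ∀ (G : Type) [Group G] (w : GH G), NW w → ∀ E r : ℕ, ∃ κ0 : ℕ, ∀ κ : ℕ,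
  κ0 ≤ κ → ∀ (n : ℕ) (F : GH G) (L : LS F 1100 234003 2) (X : Set G) (M : Subgroup G)
    [M.Normal], Ctx w κ n L X M → ∀ w' : GH (G ⧸ M), QL w M w' → ∀ x ∈ X,
      ∀ (γ : ℕ → G) (l : ℕ), w.Geod γ l → w'.d (γ 0 : G ⧸ M) (γ l : G ⧸ M) = l →
        CapX w κ x E γ l → Det w'.d (Lam n) r (10 * n * κ) (fun j => (γ j : G ⧸ M)) l

/-- the step of the construction -/
def S_STEP : Prop := ∃ n0 : ℕ, ∀ n : ℕ, n0 ≤ n → Odd n → ∀ (G : Type) [Group G] (w : GH G)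
  (h h' : G), NW w → Str w h → Str w h' → NC h h' → ∀ r0 : ℕ, PH w (Lam n) h r0 →
    ∀ C r : ℕ, ∃ D0 : ℕ, ∀ R : ℕ, ∃ (M : Subgroup G) (_ : M.Normal) (w' : GH (G ⧸ M)) (s : ℕ),
      QL w M w' ∧ NW w' ∧ Str w' (h : G ⧸ M) ∧ Str w' (h' : G ⧸ M) ∧
      NC (h' : G ⧸ M) (h : G ⧸ M) ∧
      (∀ g : G, w.len g ≤ R → w'.len (g : G ⧸ M) = w.len g) ∧
      (∀ t1 : ℕ, Cut w'.d (h : G ⧸ M) C r D0 t1) ∧
      (∀ (γ : ℕ → G ⧸ M) (l : ℕ), w'.Geod γ l → s ≤ l → Det w'.d (Lam n) (min r0 R) s γ l) ∧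
      PH w' (Lam n) (h' : G ⧸ M) R

/-- job STEPF: the step for the quotients of the free group of rank two -/
def S_STEPF : Prop := ∃ n0 : ℕ, ∀ n : ℕ, n0 ≤ n → Odd n → ∀ (N : Subgroup F2) [N.Normal]
  (i i' : Fin 2) (r0 : ℕ), Lev n N i i' r0 → ∀ C r : ℕ, ∃ D0 : ℕ, ∀ R : ℕ,
    ∃ (N' : Subgroup F2) (_ : N'.Normal) (s : ℕ), N ≤ N' ∧ Lev n N' i' i R ∧
      (∀ f : F2, qd N 1 f ≤ R → qd N' 1 f = qd N 1 f) ∧
      (∀ t1 : ℕ, Cut (qd N') (gn N' i) C r D0 t1) ∧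
      ∀ (γ : ℕ → F2 ⧸ N') (l : ℕ), (∀ j, j < l → qd N' (γ j) (γ (j + 1)) ≤ 1) →
        qd N' (γ 0) (γ l) = l → s ≤ l → Det (qd N') (Lam n) (min r0 R) s γ l

/-- job BASE: the free group of rank two -/
def S_BASE : Prop := ∀ n : ℕ, Lev n ⊥ 0 1 0

open Pool.Agent.H659R3.MorseLim Pool.Agent.Y33.LG

/-- job TOWER: the limit group -/
def S_TOWER : Prop := ∃ (G : Type) (_ : Group G) (A : FinGen G) (a b : G) (Λ : ℕ),
  (∀ k : ℕ, A.len (a ^ k) = k) ∧ (∀ k : ℕ, A.len (b ^ k) = k) ∧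
  (∀ C r : ℕ, ∃ D0 : ℕ, ∀ t : ℕ, D0 ≤ t → Cut A.dist a C r t t ∨ Cut A.dist b C r t t) ∧
  ∀ r : ℕ, ∃ s : ℕ, ∀ (γ : ℕ → G) (l : ℕ), (∀ i, i < l → A.dist (γ i) (γ (i + 1)) ≤ 1) →
    A.dist (γ 0) (γ l) = l → s ≤ l → Det A.dist Λ r s γ l

/-- A metric space is Morse limited: for every Morse gauge `M` and all constants, the domains of
the `M`-Morse quasi-geodesics are bounded. -/
def MorseLimited (X : Type) [MetricSpace X] : Prop :=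
  ∀ (M : Gauge) (lam eps : ℝ), 1 ≤ lam → 0 ≤ eps → ∃ B : ℝ, ∀ (I : Set ℝ) (γ : ℝ → X),
    I.OrdConnected → Pool.Agent.Y33.LG.IsQuasiGeod lam eps I γ →
      Pool.Agent.Y33.LG.IsMorse M I γ → ∀ s ∈ I, ∀ t ∈ I, |s - t| ≤ B

/-- job ML: groups with uniform detours are Morse limited -/
def S_ML : Prop := ∀ (G : Type) [Group G] (A : FinGen G) (Λ : ℕ),
  (∀ r : ℕ, ∃ s : ℕ, ∀ (γ : ℕ → G) (l : ℕ), (∀ i, i < l → A.dist (γ i) (γ (i + 1)) ≤ 1) →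
    A.dist (γ 0) (γ l) = l → s ≤ l → Det A.dist Λ r s γ l) → MorseLimited (Cay A)

/-- `C` is the asymptotic cone of `X` for the ultrafilter `ω`, the scaling sequence `s` and the
base points `e`: the points of `C` are the classes of the sequences `x` for which
`dist (x j) (e j) / s j` is bounded, and the distance of the classes of `x` and `y` is the limit
of `dist (x j) (y j) / s j` along `ω`. -/
def IsAsCone {X : Type} [MetricSpace X] (ω : Ultrafilter ℕ) (s : ℕ → ℝ) (e : ℕ → X) (C : Type)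
    [MetricSpace C] : Prop :=
  ∃ f : {x : ℕ → X // ∃ K : ℝ, ∀ j, dist (x j) (e j) ≤ K * s j} → C, Function.Surjective f ∧
    ∀ x y, Filter.Tendsto (fun j => dist (x.1 j) (y.1 j) / s j) ω (nhds (dist (f x) (f y)))

/-- job CONE: superlinear divergence gives cut points in all asymptotic cones -/
def S_CONE : Prop := ∀ (G : Type) [Group G] (A : FinGen G) (a b : G),
  (∀ k : ℕ, A.len (a ^ k) = k) → (∀ k : ℕ, A.len (b ^ k) = k) →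
  (∀ C r : ℕ, ∃ D0 : ℕ, ∀ t : ℕ, D0 ≤ t → Cut A.dist a C r t t ∨ Cut A.dist b C r t t) →
    ∀ (ω : Ultrafilter ℕ) (s : ℕ → ℝ) (e : ℕ → Cay A), (ω : Filter ℕ) ≤ Filter.cofinite →
      (∀ j, 0 < s j) → Filter.Tendsto s Filter.atTop Filter.atTop →
        (∃ (C : Type) (_ : MetricSpace C), IsAsCone ω s e C) ∧
        ∀ (C : Type) [MetricSpace C], IsAsCone ω s e C →
          ConnectedSpace C ∧ ∃ p : C, ¬ IsPreconnected ({p}ᶜ : Set C)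

end Pool.Agent.Y33.SM
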